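import Pool.Agent.Helper56_CON.HA

/-! # H_C: three middle components, all others even (squad CON, MP_6d18f4_al) -/

set_option autoImplicit false

noncomputable section

namespace Pool.Agent.CON.H40

open Pool.Agent.CON H56

/-- **H_C** -/
theorem h_c (hNOR : E_NOR) (hJ1 : E_J1) (hJ2 : E_J2) (hJ4 : E_J4) (hN2 : E_N2) (hORT : E_ORT)
    (hNON : E_NON) (hCAP : E_CAP) : H_C := by
  classical
  intro M _ _ b k C s r i1 i2 i3 hb hC hr h12 h13 h23 hm1 hm2 hm3 hother
  -- ranks of the middle components
  have hle : ∀ i, Md b (C i) (s i) (r i) → r i ≤ 4 := by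
    intro i hi
    by_contra h
    exact hCAP M b (C i) (s i) hb (hC.irr i) hi.1 hi.2.1 (rk_mono (by omega) (hC.rk i))
  have hr1 := hle i1 hm1
  have hr2 := hle i2 hm2
  have hr3 := hle i3 hm3
  -- a root of the first component and an odd product
  obtain ⟨α, hα, β, hβ, hαβ⟩ := hNON M b (C i1) (s i1) hb (hC.irr i1) (rk_mono hm1.2.2 (hC.rk i1))
  have hodd : ∃ y ∈ AddSubgroup.closure (C i1), ¬ (2 : ℤ) ∣ b α y :=
    ⟨β, closure_root hβ, by rw [hαβ]; exact hm1.1⟩
  obtain ⟨ρ, hρ⟩ := (hC.irr i2).ne
  set E : Finset (Fin k) := Finset.univ.filter fun i => (2 : ℤ) ∣ s i with hEdef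
  have hE : ∀ i ∈ E, (2 : ℤ) ∣ s i := fun i hi => (Finset.mem_filter.1 hi).2
  have hiE1 : i1 ∉ E := fun h => hm1.1 (hE i1 h)
  have hiE2 : i2 ∉ E := fun h => hm2.1 (hE i2 h)
  have hiE3 : i3 ∉ E := fun h => hm3.1 (hE i3 h)
  have hsum : ∑ i, r i = r i1 + r i2 + r i3 + ∑ i ∈ E, r i := by
    have hu : (Finset.univ : Finset (Fin k)) = insert i1 (insert i2 (insert i3 E)) := by
      ext i
      simp only [Finset.mem_univ, Finset.mem_insert, true_iff]
      by_cases h1 : i = i1
      · exact Or.inl h1
      by_cases h2 : i = i2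
      · exact Or.inr (Or.inl h2)
      by_cases h3 : i = i3
      · exact Or.inr (Or.inr (Or.inl h3))
      · exact Or.inr (Or.inr (Or.inr (Finset.mem_filter.2 ⟨Finset.mem_univ _, hother i h1 h2 h3⟩)))
    rw [hu, Finset.sum_insert (by simp [h12, h13, hiE1]), Finset.sum_insert (by simp [h23, hiE2]),
      Finset.sum_insert hiE3]
    ring
  have hJα : JB b (C i1) α 1 := JB.root_one hJ1 hN2 hb hC hα
  have hJρ : JB b (C i2) ρ 1 := JB.root_one hJ1 hN2 hb hC hρ
  have hodd1 := hm1.1
  have hodd2 := hm2.1
  have hodd3 := hm3.1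
  by_cases hE2 : 2 ≤ E.card
  · obtain ⟨T, hT, hTc⟩ := Finset.exists_subset_card_eq hE2
    refine asmR hNOR hJ1 hJ2 hN2 hb hC i1 α 1 (closure_root hα) (by norm_num) hJα hodd T {i2}
      (fun i hi => hE i (hT hi)) (fun i hi => by rw [Finset.mem_singleton.1 hi]; exact hm2.1)
      hm1.1 (by simpa using h12) ?_ ?_
    · rw [hTc, Finset.card_singleton]; norm_num
    · rw [Finset.card_singleton, (hC.irr i1).norm α hα]
      push_cast
      omega
  by_cases hE1 : E.card = 1
  · obtain ⟨e, he⟩ := Finset.card_eq_one.1 hE1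
    have hee : e ∈ E := by rw [he]; exact Finset.mem_singleton_self e
    have hse := hE e hee
    have hne1 : i1 ≠ e := fun h => hiE1 (h ▸ hee)
    have hne2 : i2 ≠ e := fun h => hiE2 (h ▸ hee)
    have hne3 : i3 ≠ e := fun h => hiE3 (h ▸ hee)
    by_cases hR : Rk (C e) 3
    · obtain ⟨γ, hγ, δ, hδ, hγδ⟩ := hORT M b (C e) (s e) hb (hC.irr e) hR
      have hJ := hJ4 M b (C e) (s e) γ δ hb (hC.irr e) hse hγ hδ hγδ
      refine asm hNOR hb hC i1 α 1 (closure_root hα) (by norm_num) hJα hodd {i2, e}
        (by simp [h12, hne1]) (fun i => if i = i2 then ρ else γ + δ)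
        (fun i => if i = i2 then 1 else 4) ?_ ?_ ?_ ?_ ?_
      · intro i hi
        rw [Finset.mem_insert, Finset.mem_singleton] at hi
        rcases hi with rfl | rfl
        · simpa using closure_root hρ
        · simp only [hne2.symm, if_false]
          exact AddSubgroup.add_mem _ (closure_root hγ) (closure_root hδ)
      · intro i _
        split_ifs <;> norm_num
      · intro i hi
        rw [Finset.mem_insert, Finset.mem_singleton] at hi
        rcases hi with rfl | rfl
        · simpa using hJρ
        · simp only [hne2.symm, if_false]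
          exact hJ
      · rw [Finset.sum_pair hne2]
        simp [hne2.symm]
      · rw [Finset.sum_pair hne2]
        simp only [if_true, hne2.symm, if_false]
        rw [hb.add_left γ δ, hb.add_right, hb.add_right, hγδ, hb.symm δ γ, hγδ,
          (hC.irr e).norm γ hγ, (hC.irr e).norm δ hδ, (hC.irr i1).norm α hα,
          (hC.irr i2).norm ρ hρ]
        omega
    · have hre : r e ≤ 2 := by
        by_contra h
        exact hR (rk_mono (by omega) (hC.rk e))
      have hr3' : 3 ≤ r i3 := by
        rw [hsum, he, Finset.sum_singleton] at hr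
        omega
      obtain ⟨γ, hγ, δ, hδ, hγδ⟩ := hORT M b (C i3) (s i3) hb (hC.irr i3)
        (rk_mono hr3' (hC.rk i3))
      have hJ : JB b (C i3) (γ + δ) 2 := by
        refine hJ2 M b (C i3) (γ + δ) hb
          (AddSubgroup.add_mem _ (closure_root hγ) (closure_root hδ))
          ((hN2 M b (C i3) (s i3) hb (hC.irr i3)).2.1 γ hγ δ hδ hγδ) ?_
        rw [hb.add_left, hb.add_right, hb.add_right, hγδ, hb.symm δ γ, hγδ,
          (hC.irr i3).norm γ hγ, (hC.irr i3).norm δ hδ]
        exact ⟨s i3, by ring⟩
      obtain ⟨τ, hτ⟩ := (hC.irr e).ne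
      have hJτ : JB b (C e) τ 2 := JB.root_even hJ2 hN2 hb hC hτ hse
      refine asm hNOR hb hC i1 α 1 (closure_root hα) (by norm_num) hJα hodd {i2, i3, e}
        (by simp [h12, h13, hne1])
        (fun i => if i = i2 then ρ else if i = i3 then γ + δ else τ)
        (fun i => if i = i2 then 1 else 2) ?_ ?_ ?_ ?_ ?_
      · intro i hi
        rw [Finset.mem_insert, Finset.mem_insert, Finset.mem_singleton] at hi
        rcases hi with rfl | rfl | rfl
        · simpa using closure_root hρ
        · simp only [h23.symm, if_false, if_true]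
          exact AddSubgroup.add_mem _ (closure_root hγ) (closure_root hδ)
        · simp only [hne2.symm, hne3.symm, if_false]
          exact closure_root hτ
      · intro i _
        split_ifs <;> norm_num
      · intro i hi
        rw [Finset.mem_insert, Finset.mem_insert, Finset.mem_singleton] at hi
        rcases hi with rfl | rfl | rfl
        · simpa using hJρ
        · simp only [h23.symm, if_false, if_true]
          exact hJ
        · simp only [hne2.symm, hne3.symm, if_false]
          exact hJτ
      · rw [Finset.sum_insert (by simp [h23, hne2]), Finset.sum_pair hne3]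
        simp [hne2.symm, h23.symm]
      · rw [Finset.sum_insert (by simp [h23, hne2]), Finset.sum_pair hne3]
        simp only [if_true, hne2.symm, hne3.symm, h23.symm, if_false]
        rw [hb.add_left γ δ, hb.add_right, hb.add_right, hγδ, hb.symm δ γ, hγδ,
          (hC.irr i3).norm γ hγ, (hC.irr i3).norm δ hδ, (hC.irr i1).norm α hα,
          (hC.irr i2).norm ρ hρ, (hC.irr e).norm τ hτ]
        omega
  · have hE0 : E = ∅ := Finset.card_eq_zero.1 (by omega)
    rw [hE0, Finset.sum_empty] at hsum
    omega

end Pool.Agent.CON.H40
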