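import Pool.Agent.Helper47_CON.Non
import Pool.Agent.Helper65_CON.HI

/-! # E_TWO2: two generators modulo 2 and the radical (squad CON, MP_6d18f4_al) -/

set_option autoImplicit false

noncomputable section

namespace Pool.Agent.CON.H40

open Pool.Agent.CON

variable {M : Type} [AddCommGroup M] {b : M → M → ℤ} {C : Set M} {s : ℤ}

/-- orthogonal roots have the same functional modulo 2 -/
theorem orth_par (hb : PD b) (hC : Irr b C s) (hcap : ¬ Cap b C) {α β : M} (hα : α ∈ C)
    (hβ : β ∈ C) (h0 : b α β = 0) {y : M} (hy : y ∈ AddSubgroup.closure C) :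
    (2 : ℤ) ∣ b (α + β) y := by
  by_contra h
  apply hcap
  refine ⟨α + β, AddSubgroup.add_mem _ (AddSubgroup.subset_closure hα)
    (AddSubgroup.subset_closure hβ), ?_, y, hy, h⟩
  rw [hb.add_left, hb.add_right, hb.add_right, h0, hb.symm β α, h0, hC.norm α hα, hC.norm β hβ]
  exact ⟨s, by ring⟩

theorem root_two (hb : PD b) (hC : Irr b C s) (hcap : ¬ Cap b C) {α β γ : M} (hα : α ∈ C)
    (hβ : β ∈ C) (hs : b α β = s) (hγ : γ ∈ C) :
    ∃ i j : ℤ, ∀ y ∈ AddSubgroup.closure C, (2 : ℤ) ∣ b (γ - i • α - j • β) y := by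
  have hs0 := hC.pos
  -- the case of a positive product with α
  have key : ∀ γ ∈ C, b γ α = s → γ ≠ β → γ ≠ -β →
      ∃ i j : ℤ, ∀ y ∈ AddSubgroup.closure C, (2 : ℤ) ∣ b (γ - i • α - j • β) y := by
    intro γ hγ h1 h2 h3
    by_cases h4 : b γ β = 0
    · refine ⟨0, 1, fun y hy => ?_⟩
      have := orth_par hb hC hcap hγ hβ h4 hy
      rw [hb.add_left] at this
      rw [hb.sub_left, hb.sub_left, hb.zsmul_left, hb.zsmul_left]
      omega
    · rcases H47.prod_cases hb hC hγ hβ h4 h2.symm (fun h => h3 (by rw [h, neg_neg])) with h5 | h5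
      · -- β - γ is a root orthogonal to α
        have h6 : β - (1 : ℤ) • γ ∈ C := hC.refl γ hγ β hβ 1 (by rw [h5, one_mul])
        rw [one_smul] at h6
        have h7 : b (β - γ) α = 0 := by
          rw [hb.sub_left, h1, hb.symm β α, hs, sub_self]
        refine ⟨1, 1, fun y hy => ?_⟩
        have := orth_par hb hC hcap h6 hα h7 hy
        rw [hb.add_left, hb.sub_left] at this
        rw [hb.sub_left, hb.sub_left, hb.zsmul_left, hb.zsmul_left]
        omega
      · -- γ = α - β
        have h6 : γ - α + β = 0 := by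
          apply hb.eq_zero
          have e : b (γ - α + β) (γ - α + β) = b γ γ + b α α + b β β - 2 * b γ α + 2 * b γ β
              - 2 * b α β := by
            rw [hb.add_left, hb.sub_left, hb.add_right, hb.sub_right, hb.add_right, hb.sub_right,
              hb.add_right, hb.sub_right, hb.symm α γ, hb.symm β γ, hb.symm β α]
            ring
          rw [e, hC.norm γ hγ, hC.norm α hα, hC.norm β hβ, h1, h5, hs]
          linarith
        refine ⟨1, -1, fun y _ => ?_⟩
        have : γ - (1 : ℤ) • α - (-1 : ℤ) • β = 0 := by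
          rw [one_smul, neg_one_zsmul, sub_neg_eq_add, h6]
        rw [this, hb.zero_left]
        exact dvd_zero _
  by_cases h1 : γ = α
  · exact ⟨1, 0, fun y _ => by simp [h1, hb.zero_left]⟩
  by_cases h2 : γ = -α
  · exact ⟨-1, 0, fun y _ => by simp [h2, hb.zero_left]⟩
  by_cases h3 : γ = β
  · exact ⟨0, 1, fun y _ => by simp [h3, hb.zero_left]⟩
  by_cases h4 : γ = -β
  · exact ⟨0, -1, fun y _ => by simp [h4, hb.zero_left]⟩
  by_cases h5 : b γ α = 0
  · refine ⟨1, 0, fun y hy => ?_⟩
    have := orth_par hb hC hcap hγ hα h5 hy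
    rw [hb.add_left] at this
    rw [hb.sub_left, hb.sub_left, hb.zsmul_left, hb.zsmul_left]
    omega
  rcases H47.prod_cases hb hC hγ hα h5 (fun h => h1 h.symm) (fun h => h2 (by rw [h, neg_neg]))
    with h6 | h6
  · exact key γ hγ h6 h3 h4
  · obtain ⟨i, j, hij⟩ := key (-γ) (H47.neg_mem hC hγ) (by rw [hb.neg_left, h6, neg_neg])
      (fun h => h4 (by rw [← h, neg_neg])) (fun h => h3 (neg_injective h))
    refine ⟨-i, -j, fun y hy => ?_⟩
    have := hij y hy
    rw [hb.sub_left, hb.sub_left, hb.zsmul_left, hb.zsmul_left, hb.neg_left] at this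
    rw [hb.sub_left, hb.sub_left, hb.zsmul_left, hb.zsmul_left]
    have h7 : b γ y - -i * b α y - -j * b β y = -(-b γ y - i * b α y - j * b β y) := by ring
    rw [h7]
    exact (dvd_neg).mpr this

/-- **E_TWO2** -/
theorem e_two2 (hN : E_NON) : E_TWO2 := by
  intro M _ b C s hb hC _ hcap
  by_cases hR : Rk C 2
  · obtain ⟨α, hα, β, hβ, hs⟩ := hN M b C s hb hC hR
    refine ⟨α, hα, β, hβ, fun x hx => ?_⟩
    induction hx using AddSubgroup.closure_induction with
    | mem x hx => exact root_two hb hC hcap hα hβ hs hx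
    | zero => exact ⟨0, 0, fun y _ => by simp [hb.zero_left]⟩
    | add x z _ _ hx hz =>
      obtain ⟨i, j, h1⟩ := hx
      obtain ⟨i', j', h2⟩ := hz
      refine ⟨i + i', j + j', fun y hy => ?_⟩
      have e : x + z - (i + i') • α - (j + j') • β =
          (x - i • α - j • β) + (z - i' • α - j' • β) := by
        rw [add_zsmul, add_zsmul]; abel
      rw [e, hb.add_left]
      exact dvd_add (h1 y hy) (h2 y hy)
    | neg x _ hx =>
      obtain ⟨i, j, h1⟩ := hx
      refine ⟨-i, -j, fun y hy => ?_⟩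
      have e : -x - (-i) • α - (-j) • β = -(x - i • α - j • β) := by
        rw [neg_zsmul, neg_zsmul]; abel
      rw [e, hb.neg_left]
      exact (dvd_neg).mpr (h1 y hy)
  · obtain ⟨α, hα⟩ := hC.ne
    refine ⟨α, hα, α, hα, fun x hx => ⟨0, 0, fun y hy => ?_⟩⟩
    simpa using H65.even_closure hb (fun x hx y hy => H65.dep_two hb hC hR hx hy) x hx y hy

end Pool.Agent.CON.H40
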